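import Mathlib
import Pool.Agent.N850.KB.Count
import Pool.Agent.N850.KB.Geom

/-!
# A positive-fraction version of Kirchberger's theorem

Full affirmative answer to Q1 of MP_ff3a4f_co.
-/

namespace Pool.Agent.Results.MP_ff3a4f_co.PositiveFraction

open Finset Filter Topology
open Pool.Agent.N850.KB (ev ev_apply GenPos)

/-- No `d+1` points of `X` lie on a common affine hyperplane of `ℝ^d`. -/
def GeneralPosition {d : ℕ} (X : Finset (EuclideanSpace ℝ (Fin d))) : Prop :=
  ∀ S ⊆ X, #S = d + 1 →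
    ¬ ∃ (u : EuclideanSpace ℝ (Fin d)) (c : ℝ), u ≠ 0 ∧ ∀ x ∈ S, inner ℝ u x = c

/-- Some affine hyperplane `{x | ⟪u, x⟫ = c}` (with `u ≠ 0`) has `P` in one of its open
half-spaces and `Q` in the other. -/
def Separated {d : ℕ} (P Q : Finset (EuclideanSpace ℝ (Fin d))) : Prop :=
  ∃ (u : EuclideanSpace ℝ (Fin d)) (c : ℝ), u ≠ 0 ∧
    (∀ p ∈ P, c < inner ℝ u p) ∧ (∀ q ∈ Q, inner ℝ u q < c)

open Classical in
/-- The conclusion of the positive-fraction statement with given `ε` and `δ`. -/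
def Works (d : ℕ) (ε δ : ℝ) : Prop :=
  ∀ (N : ℕ) (A B : Finset (EuclideanSpace ℝ (Fin d))), Disjoint A B → #A = N → #B = N →
    d + 1 ≤ 2 * N → GeneralPosition (A ∪ B) →
    (1 - ε) * ((2 * N).choose (d + 2) : ℕ) ≤
      (#{S ∈ (A ∪ B).powersetCard (d + 2) | Separated (A ∩ S) (B ∩ S)} : ℝ) →
    ∃ A' ⊆ A, ∃ B' ⊆ B, Separated A' B' ∧ (1 - δ) * N ≤ #A' ∧ (1 - δ) * N ≤ #B'

theorem Works.mono {d : ℕ} {ε ε' δ δ' : ℝ} (h : Works d ε δ) (hε : ε' ≤ ε) (hδ : δ ≤ δ') :
    Works d ε' δ' := by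
  intro N A B hAB hA hB hN hG hfrac
  have h1 : (0 : ℝ) ≤ ((2 * N).choose (d + 2) : ℕ) := Nat.cast_nonneg _
  obtain ⟨A', hA', B', hB', hs, h2, h3⟩ := h N A B hAB hA hB hN hG (le_trans (by nlinarith) hfrac)
  have hN0 : (0 : ℝ) ≤ N := Nat.cast_nonneg _
  exact ⟨A', hA', B', hB', hs, le_trans (by nlinarith) h2, le_trans (by nlinarith) h3⟩

theorem exists_m (k s : ℕ) (q : ℝ) (hq0 : 0 < q) (hq1 : q < 1) :
    ∃ m : ℕ, s ≤ m ∧ k ≤ m ∧ q ^ (m - k) * (m.choose k : ℕ) < 1 / 2 := by
  have ht := tendsto_pow_const_mul_const_pow_of_abs_lt_one k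
    (r := q) (by rw [abs_of_pos hq0]; exact hq1)
  have hpos : 0 < q ^ k / 2 := by positivity
  have hev := (ht.eventually (gt_mem_nhds hpos)).and (eventually_ge_atTop (max s k))
  obtain ⟨m, hm, hmk⟩ := hev.exists
  have hsm : s ≤ m := le_trans (le_max_left _ _) hmk
  have hkm : k ≤ m := le_trans (le_max_right _ _) hmk
  refine ⟨m, hsm, hkm, ?_⟩
  have h1 : ((m.choose k : ℕ) : ℝ) ≤ (m : ℝ) ^ k := by exact_mod_cast Nat.choose_le_pow m k
  have h2 : q ^ m = q ^ (m - k) * q ^ k := by rw [← pow_add]; congr 1; omega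
  have hqk : 0 < q ^ k := by positivity
  have h3 : q ^ (m - k) * (m.choose k : ℕ) ≤ q ^ (m - k) * (m : ℝ) ^ k := by gcongr
  have h4 : (q ^ (m - k) * (m : ℝ) ^ k) * q ^ k < (1 / 2) * q ^ k := by
    calc _ = (m : ℝ) ^ k * q ^ m := by rw [h2]; ring
      _ < q ^ k / 2 := hm
      _ = _ := by ring
  exact lt_of_le_of_lt h3 (lt_of_mul_lt_mul_right h4 hqk.le)

theorem core (d : ℕ) (hd : 1 ≤ d) (δ : ℝ) (hδ : 0 < δ) (hδ1 : δ ≤ 1) :
    ∃ ε : ℝ, 0 < ε ∧ Works d ε δ := by
  classical
  have hq0 : (0 : ℝ) < 1 - δ / 2 := by linarith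
  have hq1 : 1 - δ / 2 < 1 := by linarith
  obtain ⟨m, hsm, hkm, hmlt⟩ := exists_m (d + 1) (d + 2) (1 - δ / 2) hq0 hq1
  have hCpos : (0 : ℝ) < (m.choose (d + 2) : ℕ) := by exact_mod_cast Nat.choose_pos hsm
  refine ⟨1 / (2 * (m.choose (d + 2) : ℕ)), by positivity, ?_⟩
  set ε : ℝ := 1 / (2 * (m.choose (d + 2) : ℕ)) with hε
  have hεC : ε * (m.choose (d + 2) : ℕ) = 1 / 2 := by rw [hε]; field_simp
  have hε0 : 0 < ε := by rw [hε]; positivity
  intro N A B hAB hA hB hN hG hfrac
  set X := A ∪ B with hX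
  have hXc : #X = 2 * N := by rw [hX, card_union_of_disjoint hAB, hA, hB]; ring
  have hN1 : 1 ≤ N := by omega
  have hNR : (1 : ℝ) ≤ N := by exact_mod_cast hN1
  have hG' : GenPos X := hG
  let lab : EuclideanSpace ℝ (Fin d) → ℝ := fun x => if x ∈ A then 1 else -1
  have labA : ∀ x ∈ A, lab x = 1 := fun x hx => if_pos hx
  have labB : ∀ x ∈ B, lab x = -1 := fun x hx =>
    if_neg (fun h => (Finset.disjoint_left.mp hAB) h hx)
  have hlab : ∀ x, lab x ≠ 0 := by
    intro x; simp only [lab]; split_ifs <;> norm_num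
  -- the bad subsets
  let Bad := {S ∈ X.powersetCard (d + 2) | ¬ Separated (A ∩ S) (B ∩ S)}
  have hBadc : (#Bad : ℝ) ≤ ε * ((#X).choose (d + 2) : ℕ) := by
    have h1 := card_filter_add_card_filter_not (s := X.powersetCard (d + 2))
      (fun S => Separated (A ∩ S) (B ∩ S))
    rw [card_powersetCard] at h1
    have h2 : (#{S ∈ X.powersetCard (d + 2) | Separated (A ∩ S) (B ∩ S)} : ℝ) + #Bad =
        ((#X).choose (d + 2) : ℕ) := by exact_mod_cast h1
    rw [hXc] at h2 ⊢
    nlinarith [hfrac]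
  have hgood : ∀ S ⊆ X, Separated (A ∩ S) (B ∩ S) → ∃ v, ∀ x ∈ S, 0 < lab x * ev x v := by
    rintro S hS ⟨u, c, hu, hP, hQ⟩
    refine ⟨(u, -c), fun x hx => ?_⟩
    rw [ev_apply]
    rcases mem_union.mp (hS hx) with h | h
    · rw [labA x h]
      have := hP x (mem_inter.mpr ⟨h, hx⟩)
      linarith
    · rw [labB x h]
      have := hQ x (mem_inter.mpr ⟨h, hx⟩)
      linarith
  have hsepT : ∀ T ⊆ X, d + 2 ≤ #T → (∀ S ∈ Bad, ¬ S ⊆ T) → ∃ v, ∀ x ∈ T, 0 < lab x * ev x v := by
    intro T hT hTc hno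
    refine Pool.Agent.N850.KB.kirchberger lab T hTc fun S hS hSc => hgood S (hS.trans hT) ?_
    by_contra hcon
    exact hno S (mem_filter.mpr ⟨mem_powersetCard.mpr ⟨hS.trans hT, hSc⟩, hcon⟩) hS
  -- final step for a parameter `v` with few errors
  have hfinal : ∀ v : EuclideanSpace ℝ (Fin d) × ℝ,
      (#{x ∈ X | lab x * ev x v ≤ 0} : ℝ) < δ * N →
      ∃ A' ⊆ A, ∃ B' ⊆ B, Separated A' B' ∧ (1 - δ) * N ≤ #A' ∧ (1 - δ) * N ≤ #B' := by
    intro v hv
    have hδN : δ * N ≤ N := by nlinarith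
    have hu : v.1 ≠ 0 := by
      intro hu
      have hev : ∀ x, ev x v = v.2 := by
        intro x; rw [ev_apply, hu, inner_zero_left, zero_add]
      rcases le_total v.2 0 with hc | hc
      · have : A ⊆ {x ∈ X | lab x * ev x v ≤ 0} := by
          intro x hx
          rw [mem_filter]
          refine ⟨mem_union_left _ hx, ?_⟩
          rw [labA x hx, hev]; linarith
        have h1 := card_le_card this
        rw [hA] at h1
        have h2 : (N : ℝ) ≤ (#{x ∈ X | lab x * ev x v ≤ 0} : ℝ) := by exact_mod_cast h1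
        linarith
      · have : B ⊆ {x ∈ X | lab x * ev x v ≤ 0} := by
          intro x hx
          rw [mem_filter]
          refine ⟨mem_union_right _ hx, ?_⟩
          rw [labB x hx, hev]; linarith
        have h1 := card_le_card this
        rw [hB] at h1
        have h2 : (N : ℝ) ≤ (#{x ∈ X | lab x * ev x v ≤ 0} : ℝ) := by exact_mod_cast h1
        linarith
    refine ⟨{x ∈ A | 0 < ev x v}, filter_subset _ _, {x ∈ B | ev x v < 0}, filter_subset _ _,
      ⟨v.1, -v.2, hu, ?_, ?_⟩, ?_, ?_⟩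
    · intro p hp
      have := (mem_filter.mp hp).2
      rw [ev_apply] at this; linarith
    · intro p hp
      have := (mem_filter.mp hp).2
      rw [ev_apply] at this; linarith
    · have h1 := card_filter_add_card_filter_not (s := A) (fun x => 0 < ev x v)
      rw [hA] at h1
      have h2 : #{x ∈ A | ¬ 0 < ev x v} ≤ #{x ∈ X | lab x * ev x v ≤ 0} := by
        refine card_le_card fun x hx => ?_
        rw [mem_filter] at hx ⊢
        refine ⟨mem_union_left _ hx.1, ?_⟩
        rw [labA x hx.1]; linarith [hx.2, not_lt.mp hx.2]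
      have h3 : (#{x ∈ A | 0 < ev x v} : ℝ) + #{x ∈ A | ¬ 0 < ev x v} = N := by exact_mod_cast h1
      have h4 : (#{x ∈ A | ¬ 0 < ev x v} : ℝ) ≤ #{x ∈ X | lab x * ev x v ≤ 0} := by
        exact_mod_cast h2
      linarith
    · have h1 := card_filter_add_card_filter_not (s := B) (fun x => ev x v < 0)
      rw [hB] at h1
      have h2 : #{x ∈ B | ¬ ev x v < 0} ≤ #{x ∈ X | lab x * ev x v ≤ 0} := by
        refine card_le_card fun x hx => ?_
        rw [mem_filter] at hx ⊢
        refine ⟨mem_union_right _ hx.1, ?_⟩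
        rw [labB x hx.1]; linarith [hx.2, not_lt.mp hx.2]
      have h3 : (#{x ∈ B | ev x v < 0} : ℝ) + #{x ∈ B | ¬ ev x v < 0} = N := by exact_mod_cast h1
      have h4 : (#{x ∈ B | ¬ ev x v < 0} : ℝ) ≤ #{x ∈ X | lab x * ev x v ≤ 0} := by
        exact_mod_cast h2
      linarith
  rcases lt_or_ge (2 * N) m with hsmall | hbig
  · -- few points: everything is separable
    have hnoBad : Bad = ∅ := by
      rw [← card_eq_zero]
      have h1 : ((2 * N).choose (d + 2) : ℕ) ≤ m.choose (d + 2) := Nat.choose_le_choose _ hsmall.le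
      have h2 : (((2 * N).choose (d + 2) : ℕ) : ℝ) ≤ (m.choose (d + 2) : ℕ) := by exact_mod_cast h1
      rw [hXc] at hBadc
      have h3 : (#Bad : ℝ) < 1 := by
        calc (#Bad : ℝ) ≤ ε * ((2 * N).choose (d + 2) : ℕ) := hBadc
          _ ≤ ε * (m.choose (d + 2) : ℕ) := by gcongr
          _ = 1 / 2 := hεC
          _ < 1 := by norm_num
      have h4 : #Bad < 1 := by exact_mod_cast h3
      omega
    have hv : ∃ v, ∀ x ∈ X, 0 < lab x * ev x v := by
      rcases lt_or_ge (#X) (d + 2) with h | h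
      · obtain ⟨v, hv⟩ := Pool.Agent.N850.KB.interpolate lab X hG' (by omega)
        refine ⟨v, fun x hx => ?_⟩
        rw [hv x hx]
        exact mul_self_pos.mpr (hlab x)
      · exact hsepT X subset_rfl h (by rw [hnoBad]; simp)
    obtain ⟨v, hv⟩ := hv
    apply hfinal v
    have : {x ∈ X | lab x * ev x v ≤ 0} = (∅ : Finset _) := by
      rw [filter_eq_empty_iff]
      intro x hx
      exact not_le.mpr (hv x hx)
    rw [this]
    simp only [card_empty, Nat.cast_zero]
    positivity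
  · -- sampling
    let hyp : Finset (EuclideanSpace ℝ (Fin d)) → EuclideanSpace ℝ (Fin d) × ℝ := fun K =>
      if h : ∃ v, ∀ x ∈ K, lab x * ev x v = 1 then h.choose else 0
    have hhyp : ∀ K, (∃ v, ∀ x ∈ K, lab x * ev x v = 1) → ∀ x ∈ K, lab x * ev x (hyp K) = 1 := by
      intro K h
      have : hyp K = h.choose := dif_pos h
      rw [this]; exact h.choose_spec
    let M : Finset (EuclideanSpace ℝ (Fin d)) → Finset (EuclideanSpace ℝ (Fin d)) := fun K =>
      {x ∈ X | lab x * ev x (hyp K) ≤ 0}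
    have hsamp := Pool.Agent.N850.KB.sampling X (d + 2) (d + 1) m Bad (filter_subset _ _) M
      (fun K => (#(M K) : ℝ) < δ * N) ε (1 - δ / 2) hq0.le hq1.le hBadc hsm hkm
      (by rw [hXc]; exact hbig)
      (by
        intro K hK hns
        rw [mem_powersetCard] at hK
        have hns' : δ * N ≤ (#(M K) : ℝ) := not_lt.mp hns
        by_cases h : ∃ v, ∀ x ∈ K, lab x * ev x v = 1
        · have hdisj : Disjoint K (M K) := by
            rw [Finset.disjoint_left]
            intro x hxK hxM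
            have h1 := hhyp K h x hxK
            have h2 := (mem_filter.mp hxM).2
            linarith
          have h1 : #(X \ (K ∪ M K)) = 2 * N - (d + 1 + #(M K)) := by
            rw [card_sdiff_of_subset (union_subset hK.1 (filter_subset _ _)),
              card_union_of_disjoint hdisj, hXc, hK.2]
          have h2 : d + 1 + #(M K) ≤ 2 * N := by
            rw [← hXc, ← hK.2, ← card_union_of_disjoint hdisj]
            exact card_le_card (union_subset hK.1 (filter_subset _ _))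
          rw [h1, hXc, Nat.cast_sub h2, Nat.cast_sub hN]
          push_cast
          nlinarith
        · have h0 : hyp K = 0 := dif_neg h
          have hMX : M K = X := by
            change {x ∈ X | lab x * ev x (hyp K) ≤ 0} = X
            rw [h0]
            refine filter_true_of_mem fun x _ => ?_
            rw [map_zero, mul_zero]
          have hem : X \ (K ∪ M K) = ∅ := by
            rw [hMX, union_eq_right.mpr hK.1]
            exact Finset.sdiff_self X
          rw [hem, card_empty, Nat.cast_zero]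
          positivity)
      (by
        intro T hT hno
        rw [mem_powersetCard] at hT
        have h1 := hsepT T hT.1 (by omega) hno
        have h2 := Pool.Agent.N850.KB.normalise lab T h1
        obtain ⟨K, hKT, hKc, v, hvK, hvT⟩ :=
          Pool.Agent.N850.KB.compress lab hlab T (hG'.mono hT.1) (by omega) h2
        refine ⟨K, mem_powersetCard.mpr ⟨hKT.trans hT.1, hKc⟩, hKT, ?_⟩
        have h3 := hhyp K ⟨v, hvK⟩
        have h4 : v - hyp K = 0 := by
          refine Pool.Agent.N850.KB.eq_zero_of_ev_eq_zero hG' K (hKT.trans hT.1) hKc _ ?_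
          intro x hx
          rw [map_sub, sub_eq_zero]
          exact mul_left_cancel₀ (hlab x) ((hvK x hx).trans (h3 x hx).symm)
        have h5 : hyp K = v := (sub_eq_zero.mp h4).symm
        rw [Finset.disjoint_left]
        intro x hxT hxM
        have h6 := (mem_filter.mp hxM).2
        rw [h5] at h6
        linarith [hvT x hxT])
      (by rw [hεC]; linarith)
    obtain ⟨K, _, hK⟩ := hsamp
    exact hfinal (hyp K) hK

open Classical in
/-- **Positive-fraction Kirchberger theorem.**  For each `d ≥ 1` there is a function `g` with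
`g(ε) → 0` as `ε → 0+` such that: if `A`, `B` are disjoint `N`-point sets in `ℝ^d` with
`A ∪ B` in general position and at least a `(1-ε)` fraction of the `(d+2)`-subsets `S` of `A ∪ B`
have `A ∩ S` and `B ∩ S` separated by a hyperplane, then some `A' ⊆ A`, `B' ⊆ B` with
`|A'|, |B'| ≥ (1 - g(ε)) N` are separated by a hyperplane. -/
theorem result (d : ℕ) (hd : 1 ≤ d) :
    ∃ g : ℝ → ℝ, Tendsto g (𝓝[>] 0) (𝓝 0) ∧
      ∀ ε : ℝ, 0 < ε →
        ∀ (N : ℕ) (A B : Finset (EuclideanSpace ℝ (Fin d))),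
          Disjoint A B → #A = N → #B = N → d + 1 ≤ 2 * N → GeneralPosition (A ∪ B) →
          (1 - ε) * ((2 * N).choose (d + 2) : ℕ) ≤
            (#{S ∈ (A ∪ B).powersetCard (d + 2) | Separated (A ∩ S) (B ∩ S)} : ℝ) →
          ∃ A' ⊆ A, ∃ B' ⊆ B, Separated A' B' ∧ (1 - g ε) * N ≤ #A' ∧ (1 - g ε) * N ≤ #B' := by
  have hone : ∀ ε, Works d ε 1 := by
    intro ε N A B _ _ _ _ _ _
    refine ⟨∅, empty_subset _, ∅, empty_subset _, ?_, by simp, by simp⟩
    have : Nonempty (Fin d) := ⟨⟨0, hd⟩⟩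
    obtain ⟨u, hu⟩ := exists_ne (0 : EuclideanSpace ℝ (Fin d))
    exact ⟨u, 0, hu, by simp, by simp⟩
  let D : ℝ → Set ℝ := fun ε => {δ | 0 < δ ∧ Works d ε δ}
  have hDne : ∀ ε, (D ε).Nonempty := fun ε => ⟨1, one_pos, hone ε⟩
  have hDbdd : ∀ ε, BddBelow (D ε) := fun ε => ⟨0, fun δ hδ => hδ.1.le⟩
  refine ⟨fun ε => sInf (D ε) + ε, ?_, ?_⟩
  · rw [Metric.tendsto_nhdsWithin_nhds]
    intro η hη
    obtain ⟨ε0, hε0, hW⟩ := core d hd (min (η / 2) 1) (by positivity) (min_le_right _ _)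
    refine ⟨min ε0 (η / 2), by positivity, ?_⟩
    intro ε hεpos hεd
    have hεpos' : 0 < ε := hεpos
    rw [Real.dist_eq, sub_zero, abs_of_pos hεpos'] at hεd
    have h1 : ε ≤ ε0 := (lt_of_lt_of_le hεd (min_le_left _ _)).le
    have h2 : ε < η / 2 := lt_of_lt_of_le hεd (min_le_right _ _)
    have h3 : min (η / 2) 1 ∈ D ε := ⟨by positivity, hW.mono h1 le_rfl⟩
    have h4 : sInf (D ε) ≤ η / 2 := (csInf_le (hDbdd ε) h3).trans (min_le_left _ _)
    have h5 : 0 ≤ sInf (D ε) := le_csInf (hDne ε) fun δ hδ => hδ.1.le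
    rw [Real.dist_eq, sub_zero, abs_of_nonneg (by linarith)]
    linarith
  · intro ε hε
    have hlt : sInf (D ε) < sInf (D ε) + ε := by linarith
    obtain ⟨δ, hδ, hδlt⟩ := exists_lt_of_csInf_lt (hDne ε) hlt
    exact hδ.2.mono le_rfl hδlt.le

end Pool.Agent.Results.MP_ff3a4f_co.PositiveFraction
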